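import Mathlib

/-!
# Functionally `G_δ` subsets of normal spaces and 1-embeddedness (MP_aca66f_gt)

The space is a variant of the Michael line: the rational numbers together with two isolated copies
of the irrational numbers.
-/

namespace Pool.Agent.Results.MP_aca66f_gt.MichaelLine

open Set Topology

universe u

/-- Functionally open sets. -/
def FunOpen {X : Type u} [TopologicalSpace X] (A : Set X) : Prop :=
  ∃ f : X → ℝ, Continuous f ∧ (∀ x, f x ∈ Set.Icc (0 : ℝ) 1) ∧ A = f ⁻¹' Set.Ioc 0 1

/-- Functionally closed sets. -/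
def FunClosed {X : Type u} [TopologicalSpace X] (A : Set X) : Prop :=
  ∃ f : X → ℝ, Continuous f ∧ (∀ x, f x ∈ Set.Icc (0 : ℝ) 1) ∧ A = f ⁻¹' {0}

/-- Functionally `G_δ` sets: countable intersections of functionally open sets. -/
def FunGdelta {X : Type u} [TopologicalSpace X] (A : Set X) : Prop :=
  ∃ U : ℕ → Set X, (∀ n, FunOpen (U n)) ∧ A = ⋂ n, U n

/-- Functionally `F_σ` sets: countable unions of functionally closed sets. -/
def FunFsigma {X : Type u} [TopologicalSpace X] (A : Set X) : Prop :=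
  ∃ K : ℕ → Set X, (∀ n, FunClosed (K n)) ∧ A = ⋃ n, K n

/-- `E` is 1-embedded in `X`. -/
def OneEmbedded {X : Type u} [TopologicalSpace X] (E : Set X) : Prop :=
  (∀ A : Set E, FunFsigma A → ∃ B : Set X, FunFsigma B ∧ A = Subtype.val ⁻¹' B) ∧
    ∀ A : Set E, FunGdelta A → ∃ B : Set X, FunGdelta B ∧ A = Subtype.val ⁻¹' B

/-- The underlying set of the space: the rationals and two copies of the irrationals. -/
abbrev M : Type := ℚ ⊕ ({x : ℝ // Irrational x} × Bool)

/-- The projection onto the real line. -/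
def pr : M → ℝ
  | Sum.inl q => (q : ℝ)
  | Sum.inr p => (p.1 : ℝ)

/-- The topology: the points of the two copies of the irrationals are isolated, and a basic
neighbourhood of a rational `q` consists of all points whose projection is `ε`-close to `q`. -/
instance : TopologicalSpace M where
  IsOpen U := ∀ q : ℚ, Sum.inl q ∈ U → ∃ ε > (0 : ℝ), ∀ x : M, |pr x - q| < ε → x ∈ U
  isOpen_univ := fun _ _ => ⟨1, one_pos, fun _ _ => trivial⟩
  isOpen_inter := by
    intro U V hU hV q hq
    obtain ⟨ε, hε, h1⟩ := hU q hq.1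
    obtain ⟨δ, hδ, h2⟩ := hV q hq.2
    exact ⟨min ε δ, lt_min hε hδ, fun x hx =>
      ⟨h1 x (lt_of_lt_of_le hx (min_le_left _ _)), h2 x (lt_of_lt_of_le hx (min_le_right _ _))⟩⟩
  isOpen_sUnion := by
    rintro s hs q ⟨U, hU, hq⟩
    obtain ⟨ε, hε, h1⟩ := hs U hU q hq
    exact ⟨ε, hε, fun x hx => ⟨U, hU, h1 x hx⟩⟩

theorem isOpen_iff' {U : Set M} : IsOpen U ↔
    ∀ q : ℚ, Sum.inl q ∈ U → ∃ ε > (0 : ℝ), ∀ x : M, |pr x - q| < ε → x ∈ U := Iff.rfl

theorem pr_eq_rat {x : M} {q : ℚ} (h : pr x = q) : x = Sum.inl q := by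
  rcases x with q' | ⟨⟨y, hy⟩, b⟩
  · have : (q' : ℝ) = q := h
    rw [Rat.cast_inj] at this
    rw [this]
  · exact absurd h (fun h => hy ⟨q, h.symm⟩)

theorem continuous_pr : Continuous pr := by
  rw [continuous_def]
  intro s hs q hq
  obtain ⟨ε, hε, h⟩ := Metric.isOpen_iff.1 hs (q : ℝ) hq
  exact ⟨ε, hε, fun x hx => h (by rw [Metric.mem_ball, Real.dist_eq]; exact hx)⟩

theorem isOpen_pre {U : Set ℝ} (hU : IsOpen U) : IsOpen (pr ⁻¹' U) := hU.preimage continuous_pr

instance : T1Space M where
  t1 := by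
    intro x
    rw [← isOpen_compl_iff, isOpen_iff']
    intro q hq
    have hne : pr x ≠ q := fun h => hq (pr_eq_rat h).symm
    refine ⟨|pr x - q|, abs_pos.2 (sub_ne_zero.2 hne), fun y hy hyx => ?_⟩
    rw [Set.mem_singleton_iff] at hyx
    subst hyx
    exact lt_irrefl _ hy

/-- The distance of a rational point outside a closed set to the projection of the closed set. -/
theorem exists_radius {B : Set M} (hB : IsClosed B) (q : ℚ) (hq : Sum.inl q ∉ B) :
    ∃ r > (0 : ℝ), ∀ x ∈ B, r ≤ |pr x - q| := by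
  obtain ⟨ε, hε, h⟩ := isOpen_iff'.1 hB.isOpen_compl q hq
  exact ⟨ε, hε, fun x hx => not_lt.1 (fun hlt => h x hlt hx)⟩

instance : NormalSpace M where
  normal := by
    intro A B hA hB hAB
    have hr : ∀ q : ℚ, ∃ r > (0 : ℝ), Sum.inl q ∈ A → ∀ x ∈ B, r ≤ |pr x - q| := by
      intro q
      by_cases hq : Sum.inl q ∈ A
      · obtain ⟨r, hr, h⟩ := exists_radius hB q (fun h => Set.disjoint_left.1 hAB hq h)
        exact ⟨r, hr, fun _ => h⟩
      · exact ⟨1, one_pos, fun h => absurd h hq⟩
    have hs : ∀ q : ℚ, ∃ r > (0 : ℝ), Sum.inl q ∈ B → ∀ x ∈ A, r ≤ |pr x - q| := by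
      intro q
      by_cases hq : Sum.inl q ∈ B
      · obtain ⟨r, hr, h⟩ := exists_radius hA q (fun h => Set.disjoint_left.1 hAB h hq)
        exact ⟨r, hr, fun _ => h⟩
      · exact ⟨1, one_pos, fun h => absurd h hq⟩
    choose r hr hrA using hr
    choose s hs hsB using hs
    refine ⟨{x | x ∈ A ∨ ∃ q : ℚ, Sum.inl q ∈ A ∧ |pr x - q| < r q / 2},
      {x | x ∈ B ∨ ∃ q : ℚ, Sum.inl q ∈ B ∧ |pr x - q| < s q / 2}, ?_, ?_,
      fun x hx => Or.inl hx, fun x hx => Or.inl hx, ?_⟩
    · rw [isOpen_iff']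
      rintro q (hq | ⟨q', hq', h⟩)
      · exact ⟨r q / 2, by have := hr q; positivity, fun x hx => Or.inr ⟨q, hq, hx⟩⟩
      · refine ⟨r q' / 2 - |(q : ℝ) - q'|, by have : |pr (Sum.inl q) - q'| < r q' / 2 := h
                                              have h2 : pr (Sum.inl q) = q := rfl
                                              rw [h2] at this; linarith, fun x hx => ?_⟩
        refine Or.inr ⟨q', hq', ?_⟩
        have := abs_sub_le (pr x) q q'
        linarith
    · rw [isOpen_iff']
      rintro q (hq | ⟨q', hq', h⟩)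
      · exact ⟨s q / 2, by have := hs q; positivity, fun x hx => Or.inr ⟨q, hq, hx⟩⟩
      · refine ⟨s q' / 2 - |(q : ℝ) - q'|, by have : |pr (Sum.inl q) - q'| < s q' / 2 := h
                                              have h2 : pr (Sum.inl q) = q := rfl
                                              rw [h2] at this; linarith, fun x hx => ?_⟩
        refine Or.inr ⟨q', hq', ?_⟩
        have := abs_sub_le (pr x) q q'
        linarith
    · rw [Set.disjoint_left]
      rintro x (hx | ⟨q, hq, h⟩) (hx' | ⟨q', hq', h'⟩)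
      · exact Set.disjoint_left.1 hAB hx hx'
      · have := hsB q' hq' x hx
        have h2 := hs q'
        linarith
      · have := hrA q hq x hx'
        have h2 := hr q
        linarith
      · have h1 : r q ≤ |(q' : ℝ) - q| := hrA q hq _ hq'
        have h2 : s q' ≤ |(q : ℝ) - q'| := hsB q' hq' _ hq
        have h3 := abs_sub_le (q : ℝ) (pr x) q'
        rw [abs_sub_comm (q : ℝ) (pr x)] at h3
        rw [abs_sub_comm (q' : ℝ) q] at h1
        linarith

/-- The set `E` of all isolated points. -/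
def E : Set M := {x | ∃ p, x = Sum.inr p}

theorem funOpen_compl {K : Set M} (h : FunClosed K) : FunOpen Kᶜ := by
  obtain ⟨f, hf, hf1, rfl⟩ := h
  refine ⟨f, hf, hf1, ?_⟩
  ext x
  simp only [Set.mem_compl_iff, Set.mem_preimage, Set.mem_singleton_iff, Set.mem_Ioc]
  exact ⟨fun h => ⟨lt_of_le_of_ne (hf1 x).1 (Ne.symm h), (hf1 x).2⟩, fun h => h.1.ne'⟩

theorem funClosed_rat (q : ℚ) : FunClosed ({Sum.inl q} : Set M) := by
  refine ⟨fun x => min 1 |pr x - q|, ?_, ?_, ?_⟩
  · exact continuous_const.min (continuous_pr.sub continuous_const).abs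
  · intro x
    exact ⟨le_min zero_le_one (abs_nonneg _), min_le_left _ _⟩
  · ext x
    simp only [Set.mem_singleton_iff, Set.mem_preimage]
    constructor
    · rintro rfl
      have : pr (Sum.inl q) = q := rfl
      rw [this]; simp
    · intro h
      apply pr_eq_rat
      rcases min_choice (1 : ℝ) |pr x - q| with h1 | h1
      · rw [h1] at h; exact absurd h one_ne_zero
      · rw [h1, abs_eq_zero, sub_eq_zero] at h; exact h

theorem E_eq : E = ⋂ q : ℚ, ({Sum.inl q} : Set M)ᶜ := by
  ext x
  simp only [E, Set.mem_ofPred_eq, Set.mem_iInter, Set.mem_compl_iff, Set.mem_singleton_iff]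
  constructor
  · rintro ⟨p, rfl⟩ q h
    exact absurd h (by simp)
  · intro h
    rcases x with q | p
    · exact absurd rfl (h q)
    · exact ⟨p, rfl⟩

theorem funGdelta_E : FunGdelta E := by
  obtain ⟨φ, hφ⟩ := exists_surjective_nat ℚ
  refine ⟨fun n => ({Sum.inl (φ n)} : Set M)ᶜ, fun n => funOpen_compl (funClosed_rat _), ?_⟩
  rw [E_eq]
  exact (hφ.iInter_comp (fun q : ℚ => ({Sum.inl q} : Set M)ᶜ)).symm

/-- Points of `E` are isolated. -/
theorem isOpen_of_sub {A : Set M} (h : A ⊆ E) : IsOpen A := by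
  rw [isOpen_iff']
  intro q hq
  obtain ⟨p, hp⟩ := h hq
  exact absurd hp (by simp)

/-- The first copy of the irrationals. -/
def F : Set E := {x | ∃ y, x.1 = Sum.inr (y, false)}

theorem funGdelta_F : FunGdelta F := by
  classical
  have hd : DiscreteTopology E := by
    rw [discreteTopology_subtype_iff']
    intro y hy
    refine ⟨{y}, isOpen_of_sub (by simpa using hy), ?_⟩
    rw [Set.inter_eq_left]
    rintro _ rfl
    exact hy
  refine ⟨fun _ => F, fun _ => ⟨F.indicator 1, continuous_of_discreteTopology, ?_, ?_⟩, ?_⟩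
  · intro x
    by_cases hx : x ∈ F
    · rw [Set.indicator_of_mem hx]; simp
    · rw [Set.indicator_of_notMem hx]; simp
  · ext x
    by_cases hx : x ∈ F
    · simp [hx]
    · simp [hx]
  · exact (Set.iInter_const F).symm

/-- Key point: no countable family of functionally closed sets covers the second copy of the
irrationals and misses the first copy. -/
theorem key (K : ℕ → Set M) (hK : ∀ n, FunClosed (K n))
    (h1 : ∀ y, Sum.inr (y, true) ∈ ⋃ n, K n) (h2 : ∀ y n, Sum.inr (y, false) ∉ K n) : False := by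
  -- the sets `P n` of irrationals cover
  let P : ℕ → Set ℝ := fun n => {y | ∃ h : Irrational y, (Sum.inr (⟨y, h⟩, true) : M) ∈ K n}
  have hcov : (⋃ i : ℕ ⊕ ℚ, (Sum.elim (fun n => closure (P n)) (fun q => {(q : ℝ)}) i)) =
      (Set.univ : Set ℝ) := by
    apply Set.eq_univ_of_forall
    intro y
    by_cases hy : Irrational y
    · obtain ⟨n, hn⟩ := Set.mem_iUnion.1 (h1 ⟨y, hy⟩)
      exact Set.mem_iUnion.2 ⟨Sum.inl n, subset_closure ⟨hy, hn⟩⟩
    · unfold Irrational at hy
      push Not at hy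
      obtain ⟨q, hq⟩ := hy
      exact Set.mem_iUnion.2 ⟨Sum.inr q, hq.symm⟩
  obtain ⟨i, hi⟩ := nonempty_interior_of_iUnion_of_closed (by
    rintro (n | q)
    · exact isClosed_closure
    · exact isClosed_singleton) hcov
  rcases i with n | q
  · -- `P n` is dense in an open set `I`
    let I := interior (closure (P n))
    have hI : IsOpen I := isOpen_interior
    have hIne : I.Nonempty := hi
    obtain ⟨g, hg, hg1, hgK⟩ := hK n
    have hgpos : ∀ x, 0 ≤ g x := fun x => (hg1 x).1
    -- `g` vanishes at the rationals of `I`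
    have hq0 : ∀ q : ℚ, (q : ℝ) ∈ I → g (Sum.inl q) = 0 := by
      intro q hq
      by_contra hne
      have hpos : 0 < g (Sum.inl q) := lt_of_le_of_ne (hgpos _) (Ne.symm hne)
      have hopen : IsOpen (g ⁻¹' Set.Ioi 0) := isOpen_Ioi.preimage hg
      obtain ⟨ε, hε, h⟩ := isOpen_iff'.1 hopen q hpos
      have hcl : (q : ℝ) ∈ closure (P n) := interior_subset hq
      rw [Metric.mem_closure_iff] at hcl
      obtain ⟨y, ⟨hy, hyK⟩, hyd⟩ := hcl ε hε
      have h3 := h (Sum.inr (⟨y, hy⟩, true)) (by
        show |y - q| < ε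
        rw [Real.dist_eq, abs_sub_comm] at hyd
        exact hyd)
      rw [hgK] at hyK
      have h4 : g (Sum.inr (⟨y, hy⟩, true)) = 0 := hyK
      have h5 : 0 < g (Sum.inr (⟨y, hy⟩, true)) := h3
      linarith
    -- the dense open sets
    let O : ℕ → Set ℝ := fun j => {y | ∃ ε > (0 : ℝ), ∀ x : M, |pr x - y| < ε → g x < 1 / (j + 1)}
    have hO : ∀ j, IsOpen (O j) := by
      intro j
      rw [Metric.isOpen_iff]
      rintro y ⟨ε, hε, h⟩
      refine ⟨ε / 2, by positivity, ?_⟩
      intro z hz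
      refine ⟨ε / 2, by positivity, fun x hx => h x ?_⟩
      rw [Metric.mem_ball, Real.dist_eq] at hz
      have := abs_sub_le (pr x) z y
      linarith
    have hOq : ∀ j, ∀ q : ℚ, (q : ℝ) ∈ I → (q : ℝ) ∈ O j := by
      intro j q hq
      have hopen : IsOpen (g ⁻¹' Set.Iio (1 / ((j : ℝ) + 1))) := isOpen_Iio.preimage hg
      obtain ⟨ε, hε, h⟩ := isOpen_iff'.1 hopen q (by
        show g (Sum.inl q) < _
        rw [hq0 q hq]
        positivity)
      exact ⟨ε, hε, fun x hx => h x hx⟩
    have hdense : Dense (⋂ i : ℕ ⊕ ℚ,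
        (Sum.elim (fun j => O j ∪ (closure I)ᶜ) (fun q => ({(q : ℝ)} : Set ℝ)ᶜ) i)) := by
      apply dense_iInter_of_isOpen
      · rintro (j | q)
        · exact (hO j).union isClosed_closure.isOpen_compl
        · exact isClosed_singleton.isOpen_compl
      · rintro (j | q)
        · -- density
          rw [dense_iff_inter_open]
          intro U hU hUne
          by_cases hUI : (U ∩ I).Nonempty
          · obtain ⟨y, hy1, hy2⟩ := hUI
            obtain ⟨δ, hδ, hball⟩ := Metric.isOpen_iff.1 (hU.inter hI) y ⟨hy1, hy2⟩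
            obtain ⟨q, hq1, hq2⟩ := exists_rat_btwn (show y < y + δ by linarith)
            have hqU := hball (show (q : ℝ) ∈ Metric.ball y δ by
              rw [Metric.mem_ball, Real.dist_eq, abs_lt]
              constructor <;> linarith)
            exact ⟨q, hqU.1, Or.inl (hOq j q hqU.2)⟩
          · obtain ⟨y, hy⟩ := hUne
            refine ⟨y, hy, Or.inr ?_⟩
            intro hcl
            rw [mem_closure_iff] at hcl
            exact hUI (hcl U hU hy)
        · exact dense_compl_singleton _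
    obtain ⟨y, hyI, hy⟩ := hdense.inter_open_nonempty I hI hIne
    rw [Set.mem_iInter] at hy
    have hirr : Irrational y := by
      rintro ⟨q, hq⟩
      exact hy (Sum.inr q) hq.symm
    have hyO : ∀ j : ℕ, g (Sum.inr (⟨y, hirr⟩, false)) < 1 / ((j : ℝ) + 1) := by
      intro j
      rcases hy (Sum.inl j) with ⟨ε, hε, h⟩ | h
      · refine h _ ?_
        show |y - y| < ε
        simpa using hε
      · exact absurd (subset_closure hyI) h
    have h0 : g (Sum.inr (⟨y, hirr⟩, false)) = 0 := by
      apply le_antisymm _ (hgpos _)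
      by_contra hcon
      push Not at hcon
      obtain ⟨j, hj⟩ := exists_nat_one_div_lt hcon
      exact absurd (hyO j) (not_lt.2 hj.le)
    apply h2 ⟨y, hirr⟩ n
    rw [hgK]
    exact h0
  · -- a singleton has empty interior
    have h3 : (interior ({(q : ℝ)} : Set ℝ)).Nonempty := hi
    rw [interior_singleton] at h3
    exact Set.not_nonempty_empty h3

/-- Complements of functionally `G_δ` sets are functionally `F_σ`. -/
theorem compl_funGdelta {X : Type u} [TopologicalSpace X] {A : Set X} (h : FunGdelta A) :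
    FunFsigma Aᶜ := by
  obtain ⟨U, hU, rfl⟩ := h
  refine ⟨fun n => (U n)ᶜ, fun n => ?_, by rw [Set.compl_iInter]⟩
  obtain ⟨f, hf, hf1, h⟩ := hU n
  refine ⟨f, hf, hf1, ?_⟩
  show (U n)ᶜ = _
  rw [h]
  ext x
  simp only [Set.mem_compl_iff, Set.mem_preimage, Set.mem_Ioc, Set.mem_singleton_iff, not_and,
    not_le]
  constructor
  · intro h
    by_contra hne
    exact absurd (h (lt_of_le_of_ne (hf1 x).1 (Ne.symm hne))) (not_lt.2 (hf1 x).2)
  · intro h h'
    rw [h] at h'
    exact absurd h' (lt_irrefl _)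

/-- **Main result**: there are a normal space `X` and a functionally `G_δ` subset `E` of `X` which is
not 1-embedded in `X`. -/
theorem result : ∃ (X : Type) (_ : TopologicalSpace X) (E : Set X),
    T1Space X ∧ NormalSpace X ∧ FunGdelta E ∧ ¬ OneEmbedded E := by
  refine ⟨M, inferInstance, E, inferInstance, inferInstance, funGdelta_E, ?_⟩
  rintro ⟨_, h⟩
  obtain ⟨B, hB, hFB⟩ := h F funGdelta_F
  obtain ⟨K, hK, hKB⟩ := compl_funGdelta hB
  have hmem : ∀ p, ∀ hp : (Sum.inr p : M) ∈ E, ((Sum.inr p : M) ∈ B ↔ p.2 = false) := by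
    intro p hp
    have h1 : ((⟨Sum.inr p, hp⟩ : E) ∈ F) ↔ (Sum.inr p : M) ∈ B := by
      rw [hFB]; rfl
    rw [← h1]
    constructor
    · rintro ⟨y, hy⟩
      have : p = (y, false) := Sum.inr_injective hy
      rw [this]
    · intro hp2
      refine ⟨p.1, ?_⟩
      show (Sum.inr p : M) = Sum.inr (p.1, false)
      rw [← hp2]
  apply key K hK
  · intro y
    rw [← hKB]
    intro hyB
    have := (hmem (y, true) ⟨_, rfl⟩).1 hyB
    exact absurd this (by simp)
  · intro y n hn
    have h1 : (Sum.inr (y, false) : M) ∈ Bᶜ := by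
      rw [hKB]; exact Set.mem_iUnion.2 ⟨n, hn⟩
    exact h1 ((hmem (y, false) ⟨_, rfl⟩).2 rfl)

end Pool.Agent.Results.MP_aca66f_gt.MichaelLine
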